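import Pool.Agent.Lib.MP_deef39_co_DA.H1

/-! # DA module FC: the plane paths starting in a hull vertex are connected -/

set_option autoImplicit false

namespace FPW

variable {α : Type*} {p : α → ℝ × ℝ}

theorem da_trans {h x z v : α} {r : ℝ × ℝ} (hx : 0 < cr r (p h) (p x))
    (hz : 0 < cr r (p h) (p z)) (hv : 0 < cr r (p h) (p v)) (h1 : 0 < o p h x z)
    (h2 : 0 < o p h z v) : 0 < o p h x v := by
  have key : cr r (p h) (p z) * o p h x v =
      cr r (p h) (p x) * o p h z v + cr r (p h) (p v) * o p h x z := by
    unfold o cr; ring
  have h3 : 0 < cr r (p h) (p z) * o p h x v := by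
    rw [key]; positivity
  exact (pos_iff_pos_of_mul_pos h3).1 hz

open Classical in
/-- the second vertex moves to the left hull neighbour -/
theorem da_second (hvl : VLp p) {h : α} (n : ℕ) : ∀ (x : α) (B : List α),
    (h :: x :: B).Nodup → Plane p (Ed (h :: x :: B)) → HV p {t | t ∈ h :: x :: B} h →
    ((x :: B).toFinset.filter (fun v => 0 < o p h x v)).card ≤ n →
    ∃ x' B', Reach p NO (h :: x :: B) (h :: x' :: B') ∧ ∀ v ∈ B', ¬ 0 < o p h x' v := by
  induction n with
  | zero =>
    intro x B _ _ _ hc
    refine ⟨x, B, Relation.ReflTransGen.refl, ?_⟩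
    intro v hv hpos
    have h1 : v ∈ (x :: B).toFinset.filter (fun v => 0 < o p h x v) := by
      simp [hv, hpos]
    have h2 := Finset.card_pos.2 ⟨v, h1⟩
    omega
  | succ n ih =>
    intro x B hn hp hv hc
    by_cases hex : ∃ v ∈ B, 0 < o p h x v
    · obtain ⟨A, z, h1, h2, h3⟩ := hvl h x B hn hp hv hex
      obtain ⟨B₂, h4, h5⟩ := da_lift (A₀ := [h]) (by simpa using h1)
      have h5' : Reach p NO (h :: x :: B) (h :: x :: B₂) := h5
      rcases List.eq_nil_or_concat B₂ with h6 | ⟨B₃, z', h6⟩
      · exfalso
        subst h6
        have h7 : z = x := by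
          have h8 : (A ++ [z]).getLast? = [x].getLast? := by rw [h4]
          simpa using h8
        rw [h7] at h2
        simp at h2
      · rw [List.concat_eq_append] at h6
        subst h6
        have hz : z' = z := by
          have h7 : (A ++ [z]).getLast? = (x :: (B₃ ++ [z'])).getLast? := by rw [h4]
          rw [← List.cons_append, List.getLast?_append, List.getLast?_append] at h7
          simpa using h7.symm
        subst hz
        have hrot : Rot p NO (h :: x :: (B₃ ++ [z'])) (h :: z' :: (x :: B₃).reverse) := by
          refine ⟨h, z', ⟨[], x :: B₃, rfl, rfl⟩, ?_⟩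
          refine Vis_mono ?_ h3
          intro a b hab
          rw [h4]
          exact (da_eo (A₀ := [h])).2 (eo_no.1 hab)
        have htot : Reach p NO (h :: x :: B) (h :: z' :: (x :: B₃).reverse) := h5'.tail hrot
        have hperm := reach_perm htot
        have hmem : ∀ t, t ∈ z' :: (x :: B₃).reverse ↔ t ∈ x :: B := by
          intro t
          exact ((List.perm_cons h).1 hperm).mem_iff
        obtain ⟨r, hr⟩ := id hv
        have hlt : ((z' :: (x :: B₃).reverse).toFinset.filter
            (fun v => 0 < o p h z' v)).card <
            ((x :: B).toFinset.filter (fun v => 0 < o p h x v)).card := by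
          apply Finset.card_lt_card
          rw [Finset.ssubset_iff_of_subset]
          · refine ⟨z', ?_, ?_⟩
            · rw [Finset.mem_filter, List.mem_toFinset]
              exact ⟨(hmem z').1 List.mem_cons_self, h2⟩
            · rw [Finset.mem_filter]
              simp
          · intro v hv'
            rw [Finset.mem_filter, List.mem_toFinset] at hv' ⊢
            have hvm := (hmem v).1 hv'.1
            have hzm := (hmem z').1 List.mem_cons_self
            have hne : ∀ t, t ∈ x :: B → t ≠ h := by
              intro t ht hth
              rw [hth] at ht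
              exact (List.nodup_cons.1 hn).1 ht
            refine ⟨hvm, da_trans (hr x ?_ ?_) (hr z' ?_ ?_) (hr v ?_ ?_) h2 hv'.2⟩
            · exact List.mem_cons_of_mem _ List.mem_cons_self
            · exact hne x List.mem_cons_self
            · exact List.mem_cons_of_mem _ hzm
            · exact hne z' hzm
            · exact List.mem_cons_of_mem _ hvm
            · exact hne v hvm
        obtain ⟨x', B', h8, h9⟩ := ih z' (x :: B₃).reverse (hperm.nodup_iff.2 hn)
          (plane_no.1 (plane_reach (plane_no.2 hp) htot))
          (hv_mono (fun t ht => hperm.mem_iff.1 ht) hv) (by omega)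
        exact ⟨x', B', htot.trans h8, h9⟩
    · push Not at hex
      exact ⟨x, B, Relation.ReflTransGen.refl, fun v hv' => not_lt.2 (hex v hv')⟩

/-- lifting a class on the point set without `h` -/
theorem da_up {h x : α} {B m : List α} (hl : ∀ v ∈ B, o p h x v < 0)
    (hr : Reach p NO (x :: B) m) :
    ∃ B₂, m = x :: B₂ ∧ Reach p NO (h :: x :: B) (h :: x :: B₂) := by
  have key : Reach p (Ed ([h] ++ [x])) (x :: B) m := by
    unfold Reach at hr ⊢
    induction hr with
    | refl => exact Relation.ReflTransGen.refl
    | @tail m₁ m₂ h1 h2 ih =>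
      refine ih.tail ?_
      obtain ⟨v, z, h3, h4⟩ := h2
      refine ⟨v, z, h3, ?_⟩
      have hmem : ∀ t ∈ m₁, o p h x t ≤ 0 := by
        intro t ht
        have h5 := (reach_perm h1).mem_iff.1 ht
        rcases List.mem_cons.1 h5 with h6 | h6
        · rw [h6]; simp
        · exact (hl t h6).le
      have hz : z ∈ m₁ := by
        obtain ⟨A, hA⟩ := rotL_last h3
        rw [hA]; simp
      have hv : v ∈ m₁ := by
        obtain ⟨A, B', hA, _⟩ := h3
        rw [hA]; simp
      have h5 := hmem z hz
      have h6 := hmem v hv
      rintro c d (h7 | h7) hX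
      · exact h4 c d (Or.inl h7) hX
      · have h8 : (c = h ∧ d = x) ∨ (c = x ∧ d = h) := by
          rcases ed_cons2.1 h7 with h8 | h8 | h8
          · exact Or.inl h8
          · exact Or.inr h8
          · exact h8.elim
        have h9 : X p z v h x := by
          rcases h8 with ⟨rfl, rfl⟩ | ⟨rfl, rfl⟩
          · exact hX
          · exact X_sw2.1 hX
        have h10 := h9.2
        nlinarith
  exact da_lift (A₀ := [h]) key

/-- the plane paths starting in the hull vertex `h` are connected by rotations -/
theorem da_fc (hgp : GP p) (hvl : VLp p) (n : ℕ) : ∀ (h : α) (l l' : List α), l.length = n →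
    (h :: l).Nodup → Plane p (Ed (h :: l)) → Plane p (Ed (h :: l')) → l'.Perm l →
    HV p {t | t ∈ h :: l} h → Reach p NO (h :: l) (h :: l') := by
  classical
  induction n with
  | zero =>
    intro h l l' hl _ _ _ hperm _
    have h1 : l = [] := List.length_eq_zero_iff.1 hl
    subst h1
    rw [hperm.eq_nil]
    exact Relation.ReflTransGen.refl
  | succ n ih =>
    intro h l l' hl hn hp hp' hperm hv
    cases l with
    | nil => simp at hl
    | cons x B =>
    cases l' with
    | nil => exact absurd hperm.length_eq (by simp)
    | cons x' B' =>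
    have hperm' : (h :: x' :: B').Perm (h :: x :: B) := hperm.cons h
    have hn' : (h :: x' :: B').Nodup := hperm'.nodup_iff.2 hn
    have hv' : HV p {t | t ∈ h :: x' :: B'} h :=
      hv_mono (fun t ht => hperm'.mem_iff.1 ht) hv
    obtain ⟨y, C, h1, h2⟩ := da_second hvl _ x B hn hp hv le_rfl
    obtain ⟨y', C', h1', h2'⟩ := da_second hvl _ x' B' hn' hp' hv' le_rfl
    have q1 := reach_perm h1
    have q1' := reach_perm h1'
    have q2 : (y :: C).Perm (x :: B) := (List.perm_cons h).1 q1
    have q2' : (y' :: C').Perm (x :: B) := ((List.perm_cons h).1 q1').trans hperm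
    have hnC : (h :: y :: C).Nodup := q1.nodup_iff.2 hn
    have hnC' : (h :: y' :: C').Nodup := q1'.nodup_iff.2 hn'
    have hneg : ∀ v ∈ C, o p h y v < 0 := by
      intro v hv1
      have hne : o p h y v ≠ 0 := by
        refine hgp.ne h y v ?_ ?_ ?_
        · rintro rfl; simp at hnC
        · rintro rfl
          exact (List.nodup_cons.1 (List.nodup_cons.1 hnC).2).1 hv1
        · rintro rfl
          exact (List.nodup_cons.1 hnC).1 (List.mem_cons_of_mem _ hv1)
      exact lt_of_le_of_ne (not_lt.1 (h2 v hv1)) hne
    have hneg' : ∀ v ∈ C', o p h y' v < 0 := by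
      intro v hv1
      have hne : o p h y' v ≠ 0 := by
        refine hgp.ne h y' v ?_ ?_ ?_
        · rintro rfl; simp at hnC'
        · rintro rfl
          exact (List.nodup_cons.1 (List.nodup_cons.1 hnC').2).1 hv1
        · rintro rfl
          exact (List.nodup_cons.1 hnC').1 (List.mem_cons_of_mem _ hv1)
      exact lt_of_le_of_ne (not_lt.1 (h2' v hv1)) hne
    have hyy : y' = y := by
      by_contra hne
      have h3 : y' ∈ C := by
        have h4 := (q2'.trans q2.symm).mem_iff.1 (List.mem_cons_self (a := y') (l := C'))
        rcases List.mem_cons.1 h4 with h5 | h5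
        · exact absurd h5 hne
        · exact h5
      have h3' : y ∈ C' := by
        have h4 := (q2.trans q2'.symm).mem_iff.1 (List.mem_cons_self (a := y) (l := C))
        rcases List.mem_cons.1 h4 with h5 | h5
        · exact absurd h5.symm hne
        · exact h5
      have h4 := hneg y' h3
      have h5 := hneg' y h3'
      have h6 := o_swap' p h y y'
      linarith
    subst hyy
    have hq : C'.Perm C := (List.perm_cons y').1 (q2'.trans q2.symm)
    have hlenC : C.length = n := by
      have h3 := q2.length_eq
      simp only [List.length_cons] at h3 hl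
      omega
    have hpl : ∀ D : List α, Plane p (Ed (h :: y' :: D)) → Plane p (Ed (y' :: D)) := by
      intro D hD
      exact Plane_mono (fun a b hab => Or.inr (Or.inr hab)) hD
    have hpC := plane_no.1 (plane_reach (plane_no.2 hp) h1)
    have hpC' := plane_no.1 (plane_reach (plane_no.2 hp') h1')
    have hvy : HV p {t | t ∈ y' :: C} y' := by
      refine ⟨((p h).1 - (p y').1, (p h).2 - (p y').2), ?_⟩
      intro t ht hne
      have ht' : t ∈ C := by
        rcases List.mem_cons.1 ht with h5 | h5
        · exact absurd h5 hne
        · exact h5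
      have h6 := hneg t ht'
      have h7 : cr ((p h).1 - (p y').1, (p h).2 - (p y').2) (p y') (p t) = - o p h y' t := by
        unfold cr o; ring
      rw [h7]
      linarith
    have hmid := ih y' C C' hlenC (List.nodup_cons.1 hnC).2 (hpl C hpC) (hpl C' hpC') hq hvy
    obtain ⟨B₂, h8, h9⟩ := da_up (h := h) hneg hmid
    have h10 : C' = B₂ := by simpa using h8
    subst h10
    exact (h1.trans h9).trans (reach_symm (plane_no.2 hp') h1')

end FPW
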