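import Pool.Agent.Lib.MP_deef39_co_DA.FC
import Pool.Agent.Lib.MP_deef39_co_PW.GrphL
import Pool.Agent.Lib.MP_deef39_co_PW.GrphS
import Pool.Agent.Lib.MP_deef39_co_PW.Seg

/-! # DA module Fin: connectivity of the flip graph from `VLp` and `TGp` -/

set_option autoImplicit false

namespace FPW

section
variable {α : Type*} {p : α → ℝ × ℝ}

/-- a nonempty finite family has a hull vertex -/
theorem da_hull (hgp : GP p) {l : List α} (hl : l ≠ []) :
    ∃ h ∈ l, HV p {t | t ∈ l} h := by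
  have hfin : ({t | t ∈ l} : Set α).Finite := List.finite_toSet l
  obtain ⟨t₀, ht₀⟩ := List.exists_mem_of_ne_nil l hl
  obtain ⟨a, ha, hmin⟩ := Set.exists_min_image {t | t ∈ l} (fun t => (p t).1) hfin ⟨t₀, ht₀⟩
  have hfin2 : ({t | t ∈ l ∧ (p t).1 = (p a).1} : Set α).Finite :=
    hfin.subset (fun t ht => ht.1)
  obtain ⟨h, hh, hmin2⟩ := Set.exists_min_image {t | t ∈ l ∧ (p t).1 = (p a).1}
    (fun t => (p t).2) hfin2 ⟨a, ha, rfl⟩
  have key : ∀ t ∈ {t | t ∈ l}, ∀ᶠ ε in nhdsWithin (0 : ℝ) (Set.Ioi 0),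
      t ≠ h → 0 < cr (ε, -1) (p h) (p t) := by
    intro t ht
    by_cases hth : t = h
    · exact Filter.Eventually.of_forall fun ε h1 => absurd hth h1
    have h1 : (p h).1 ≤ (p t).1 := by
      rw [hh.2]
      exact hmin t ht
    rcases h1.lt_or_eq with h2 | h2
    · have hcont : Filter.Tendsto (fun ε : ℝ => cr (ε, -1) (p h) (p t))
          (nhdsWithin (0 : ℝ) (Set.Ioi 0)) (nhds (cr (0, -1) (p h) (p t))) := by
        apply Filter.Tendsto.mono_left _ nhdsWithin_le_nhds
        apply Continuous.tendsto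
        unfold cr
        fun_prop
      have hpos : 0 < cr (0, -1) (p h) (p t) := by
        unfold cr
        simp only
        linarith
      filter_upwards [hcont.eventually (lt_mem_nhds hpos)] with ε hε _
      exact hε
    · have h3 : (p h).2 ≤ (p t).2 := hmin2 t ⟨ht, by rw [← h2, hh.2]⟩
      have h4 : (p h).2 ≠ (p t).2 := by
        intro h5
        exact hth (hgp.inj (Prod.ext h2.symm h5.symm))
      have h5 : (p h).2 < (p t).2 := lt_of_le_of_ne h3 h4
      filter_upwards [self_mem_nhdsWithin] with ε hε _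
      unfold cr
      simp only
      rw [h2]
      have h6 : 0 < ε * ((p t).2 - (p h).2) := mul_pos hε (by linarith)
      linarith
  have key2 := (hfin.eventually_all).2 key
  obtain ⟨ε, hε⟩ := key2.exists
  exact ⟨h, hh.1, (ε, -1), fun t ht hne => hε t ht hne⟩

/-- all plane paths on the same set are connected by rotations and reversals -/
theorem da_conn (hgp : GP p) (hvl : VLp p) (htg : TGp p) {l l' : List α}
    (hn : l.Nodup) (hperm : l'.Perm l) (hp : Plane p (Ed l)) (hp' : Plane p (Ed l')) :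
    Relation.ReflTransGen (U p) l l' := by
  by_cases hne : l = []
  · subst hne
    rw [hperm.eq_nil]
  obtain ⟨h, hh, hv⟩ := da_hull hgp hne
  have hn' : l'.Nodup := hperm.nodup_iff.2 hn
  obtain ⟨Q, hQ⟩ := da_h1 htg hn hp hh hv
  obtain ⟨Q', hQ'⟩ := da_h1 htg hn' hp' (hperm.mem_iff.2 hh)
    (hv_mono (fun t ht => hperm.mem_iff.1 ht) hv)
  have q1 := u_perm hQ
  have q1' := u_perm hQ'
  have q2 : Q'.Perm Q := (List.perm_cons h).1 ((q1'.trans hperm).trans q1.symm)
  have h1 := da_fc hgp hvl Q.length h Q Q' rfl (q1.nodup_iff.2 hn) (u_plane hp hQ)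
    (u_plane hp' hQ') q2 (hv_mono (fun t ht => q1.mem_iff.1 ht) hv)
  have h2 : Relation.ReflTransGen (U p) (h :: Q) (h :: Q') :=
    Relation.ReflTransGen.mono (fun a b h => Or.inl h) _ _ h1
  exact (hQ.trans h2).trans (u_symm hp' hQ')

end

/-- the connectivity statement for the point family `p` -/
theorem da_graph (n : ℕ) (p : Fin n → ℝ × ℝ) (hi : Function.Injective p)
    (hc : ∀ i j k : Fin n, i ≠ j → j ≠ k → i ≠ k →
      ¬ Collinear ℝ ({p i, p j, p k} : Set (ℝ × ℝ)))
    (hvl : VLp p) (htg : TGp p) :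
    ∀ P : SimpleGraph (Fin n) → Prop,
      (∀ A : SimpleGraph (Fin n), P A ↔
        (A.IsTree ∧ (∀ v : Fin n, (A.neighborSet v).ncard ≤ 2) ∧
          ∀ a b c d : Fin n, A.Adj a b → A.Adj c d → s(a, b) ≠ s(c, d) →
            ∀ x : ℝ × ℝ, x ∈ segment ℝ (p a) (p b) → x ∈ segment ℝ (p c) (p d) →
              (x = p a ∨ x = p b) ∧ (x = p c ∨ x = p d))) →
      ∀ G H : SimpleGraph (Fin n), P G → P H →
        Relation.ReflTransGen
          (fun A B : SimpleGraph (Fin n) =>
            P A ∧ P B ∧ (A.edgeSet \ B.edgeSet).ncard = 1 ∧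
              (B.edgeSet \ A.edgeSet).ncard = 1)
          G H := by
  intro P hP G H hG hH
  have hgp : GP p := gp_of hi hc
  have hlist : ∀ A : SimpleGraph (Fin n), P A → ∃ l : List (Fin n),
      l.Nodup ∧ (∀ v, v ∈ l) ∧ A = gr l ∧ Plane p (Ed l) := by
    intro A hA
    obtain ⟨h1, h2, h3⟩ := (hP A).1 hA
    obtain ⟨l, hl1, hl2, hl3⟩ := tree_list A h1 h2
    refine ⟨l, hl1, hl2, ?_, ?_⟩
    · ext x y
      rw [gr_adj hl1, hl3]
    · intro a b c d hab hcd hX
      have hne := X_ne hX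
      by_cases hs : s(a, b) = s(c, d)
      · rcases Sym2.eq_iff.1 hs with ⟨h4, _⟩ | ⟨h4, _⟩
        · exact hne.2.2.1 h4
        · exact hne.2.2.2.1 h4
      · exact (seg_iff hgp hne.1 hne.2.1 hs).1
          (h3 a b c d ((hl3 a b).2 hab) ((hl3 c d).2 hcd) hs) hX
  obtain ⟨v0⟩ := ((hP G).1 hG).1.connected.nonempty
  have hback : ∀ l : List (Fin n), l.Nodup → (∀ v, v ∈ l) → Plane p (Ed l) → P (gr l) := by
    intro l h1 h2 h3
    refine (hP _).2 ⟨gr_tree h1 (List.ne_nil_of_mem (h2 v0)) h2, gr_deg h1, ?_⟩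
    intro a b c d hab hcd hs
    have h4 := (gr_adj h1).1 hab
    have h5 := (gr_adj h1).1 hcd
    exact (seg_iff hgp (ed_ne h1 h4) (ed_ne h1 h5) hs).2 (h3 a b c d h4 h5)
  obtain ⟨l, hl1, hl2, rfl, hl4⟩ := hlist G hG
  obtain ⟨l', hl1', hl2', rfl, hl4'⟩ := hlist H hH
  have hperm : l'.Perm l :=
    (List.perm_ext_iff_of_nodup hl1' hl1).2 fun v => ⟨fun _ => hl2 v, fun _ => hl2' v⟩
  have hU : Relation.ReflTransGen (U p) l l' := da_conn hgp hvl htg hl1 hperm hl4 hl4'
  have hmain : ∀ l₁ : List (Fin n), Relation.ReflTransGen (U p) l l₁ →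
      Relation.ReflTransGen
        (fun A B : SimpleGraph (Fin n) =>
          P A ∧ P B ∧ (A.edgeSet \ B.edgeSet).ncard = 1 ∧
            (B.edgeSet \ A.edgeSet).ncard = 1)
        (gr l) (gr l₁) := by
    intro l₁ h
    induction h with
    | refl => exact Relation.ReflTransGen.refl
    | @tail l₁ l₂ h1 h2 ih =>
      have hP' : ∀ m : List (Fin n), Relation.ReflTransGen (U p) l m → P (gr m) := by
        intro m hm
        have h3 := u_perm hm
        exact hback m (h3.nodup_iff.2 hl1) (fun v => h3.mem_iff.2 (hl2 v)) (u_plane hl4 hm)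
      have hn1 : l₁.Nodup := (u_perm h1).nodup_iff.2 hl1
      rcases h2 with h3 | h3
      · obtain ⟨v, z, h4, _⟩ := id h3
        rcases gr_rot hn1 h4 with h5 | h5
        · rw [h5]
          exact ih
        · exact ih.tail ⟨hP' l₁ h1, hP' l₂ (h1.tail (Or.inl h3)), h5.1, h5.2⟩
      · rw [h3, gr_reverse]
        exact ih
  exact hmain l' hU

end FPW
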