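import Pool.Agent.Lib.MP_deef39_co_DA.Iface

/-! # DA module H1: a hull vertex becomes an end -/

set_option autoImplicit false

namespace FPW

variable {α : Type*} {p : α → ℝ × ℝ}

theorem hv_mono {T T' : Set α} {h : α} (hT : T' ⊆ T) (hh : HV p T h) : HV p T' h := by
  obtain ⟨r, hr⟩ := hh
  exact ⟨r, fun t ht hne => hr t (hT ht) hne⟩

private theorem da_h1_aux (htg : TGp p) {x : α} (n : ℕ) :
    ∀ A₀ B₀ : List α, A₀.length ≤ n → (A₀ ++ x :: B₀).Nodup → Plane p (Ed (A₀ ++ x :: B₀)) →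
      HV p {t | t ∈ A₀ ++ x :: B₀} x →
      ∃ Q, Relation.ReflTransGen (U p) (A₀ ++ x :: B₀) (x :: Q) := by
  induction n with
  | zero =>
    intro A₀ B₀ h0 _ _ _
    have hA : A₀ = [] := List.length_eq_zero_iff.1 (Nat.le_zero.1 h0)
    subst hA
    exact ⟨B₀, Relation.ReflTransGen.refl⟩
  | succ n ih =>
    intro A₀ B₀ hlen hn hp hv
    by_cases hA : A₀ = []
    · subst hA
      exact ⟨B₀, Relation.ReflTransGen.refl⟩
    obtain ⟨A, z, g, h1, h2, h3⟩ := htg x A₀ B₀ hn hA hp hv
    obtain ⟨B', h4, h5⟩ := da_lift h1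
    have h5' : Relation.ReflTransGen (U p) (A₀ ++ x :: B₀) (A₀ ++ x :: B') :=
      Relation.ReflTransGen.mono (fun a b h => Or.inl h) _ _ h5
    rcases List.eq_nil_or_concat B' with h6 | ⟨B'', z', h6⟩
    · subst h6
      refine ⟨A₀.reverse, h5'.tail (Or.inr ?_)⟩
      simp
    rw [List.concat_eq_append] at h6
    subst h6
    have hz : z' = z := by
      have h7 : (A ++ [z]).getLast? = (x :: (B'' ++ [z'])).getLast? := by rw [h4]
      rw [← List.cons_append, List.getLast?_append, List.getLast?_append] at h7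
      simpa using h7.symm
    subst hz
    obtain ⟨A₁, A₂, h8⟩ := List.append_of_mem h2
    have hrot : U p (A₀ ++ x :: (B'' ++ [z']))
        (A₁ ++ g :: z' :: (A₂ ++ x :: B'').reverse) := by
      refine Or.inl ⟨g, z', ⟨A₁, A₂ ++ x :: B'', ?_, rfl⟩, ?_⟩
      · rw [h8]
        simp
      · refine Vis_mono ?_ h3
        intro a b hab
        rw [h4]
        exact da_eo.2 (eo_no.1 hab)
    have hrev : U p (A₁ ++ g :: z' :: (A₂ ++ x :: B'').reverse)
        (A₂ ++ x :: (B'' ++ z' :: g :: A₁.reverse)) := by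
      right
      simp
    have htot : Relation.ReflTransGen (U p) (A₀ ++ x :: B₀)
        (A₂ ++ x :: (B'' ++ z' :: g :: A₁.reverse)) := (h5'.tail hrot).tail hrev
    have hperm := u_perm htot
    obtain ⟨Q, hQ⟩ := ih A₂ (B'' ++ z' :: g :: A₁.reverse) (by
      rw [h8, List.length_append, List.length_cons] at hlen
      omega) (hperm.nodup_iff.2 hn) (u_plane hp htot)
      (hv_mono (fun t ht => hperm.mem_iff.1 ht) hv)
    exact ⟨Q, htot.trans hQ⟩

/-- every plane path can be turned into one which starts in the hull vertex `x` -/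
theorem da_h1 (htg : TGp p) {l : List α} {x : α} (hn : l.Nodup) (hp : Plane p (Ed l))
    (hx : x ∈ l) (hv : HV p {t | t ∈ l} x) :
    ∃ Q, Relation.ReflTransGen (U p) l (x :: Q) := by
  obtain ⟨A₀, B₀, rfl⟩ := List.append_of_mem hx
  exact da_h1_aux htg A₀.length A₀ B₀ le_rfl hn hp hv

end FPW
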