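import Pool.Agent.Lib.MP_deef39_co_PW.HEnd

/-! # DA module Iface: the two statements about classes which imply connectivity -/

set_option autoImplicit false

namespace FPW

variable {α : Type*}

/-- `h` is a hull vertex of `T` (strictly supported) -/
def HV (p : α → ℝ × ℝ) (T : Set α) (h : α) : Prop :=
  ∃ r : ℝ × ℝ, ∀ t ∈ T, t ≠ h → 0 < cr r (p h) (p t)

/-- `VL`: paths starting with the edge `h x`, `h` a hull vertex; rotations at all vertices but `h`.
If some vertex lies on the left of `h x` then some end sees `h` from the left of `h x`. -/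
def VLp (p : α → ℝ × ℝ) : Prop :=
  ∀ (h x : α) (B : List α), (h :: x :: B).Nodup → Plane p (Ed (h :: x :: B)) →
    HV p {t | t ∈ h :: x :: B} h → (∃ v ∈ B, 0 < o p h x v) →
    ∃ A z, Reach p (Ed [h, x]) (x :: B) (A ++ [z]) ∧ 0 < o p h x z ∧
      Vis p (EO (A ++ [z]) (Ed [h, x])) z h

/-- `TG`: path `h :: B`, `h` a hull vertex, fixed arm `A` ending in `h`: some end sees a vertex
of the arm. -/
def TGp (p : α → ℝ × ℝ) : Prop :=
  ∀ (h : α) (A B : List α), (A ++ h :: B).Nodup → A ≠ [] → Plane p (Ed (A ++ h :: B)) →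
    HV p {t | t ∈ A ++ h :: B} h →
    ∃ C z g, Reach p (Ed (A ++ [h])) (h :: B) (C ++ [z]) ∧ g ∈ A ∧
      Vis p (EO (C ++ [z]) (Ed (A ++ [h]))) z g

/-- lifting a class of `x :: B₁` with the fixed prefix `A₀` to the full paths -/
theorem da_lift {p : α → ℝ × ℝ} {x : α} {A₀ B₁ m : List α}
    (h : Reach p (Ed (A₀ ++ [x])) (x :: B₁) m) :
    ∃ B₂, m = x :: B₂ ∧ Reach p NO (A₀ ++ x :: B₁) (A₀ ++ x :: B₂) := by
  unfold Reach at h
  induction h with
  | refl => exact ⟨B₁, rfl, Relation.ReflTransGen.refl⟩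
  | @tail m₁ m' _ h2 ih =>
    obtain ⟨B₂, rfl, h3⟩ := ih
    obtain ⟨v, z, h4, h5⟩ := h2
    have hh := rotL_head h4
    rw [List.head?_cons] at hh
    obtain ⟨A, B, h6, h7⟩ := h4
    have hm' : ∃ B₃, m' = x :: B₃ := by
      cases m' with
      | nil => simp at hh
      | cons a B₃ =>
        rw [List.head?_cons] at hh
        exact ⟨B₃, by rw [Option.some.inj hh]⟩
    obtain ⟨B₃, rfl⟩ := hm'
    refine ⟨B₃, rfl, h3.tail ⟨v, z, ⟨A₀ ++ A, B, ?_, ?_⟩, ?_⟩⟩
    · rw [h6, List.append_assoc]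
    · rw [h7, List.append_assoc]
    · refine Vis_mono ?_ h5
      intro a b hab
      rcases ed_mid.1 (eo_no.1 hab) with h8 | h8
      · exact Or.inr h8
      · exact Or.inl h8

/-- the edges with prefix -/
theorem da_eo {x : α} {A₀ B : List α} {a b : α} :
    EO (x :: B) (Ed (A₀ ++ [x])) a b ↔ Ed (A₀ ++ x :: B) a b := by
  rw [ed_mid]
  unfold EO
  exact or_comm

end FPW
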